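import Pool.Agent.V11105.SecretB

open MeasureTheory ProbabilityTheory Relation

namespace Pool.Agent.Results.MP_121ed1_lc.SecretSum

open Pool.Agent.V11105.Secret

universe u w

variable {V : Type u}

/-- `c` (with signals `Y`) is a secret coding scheme for the wiretapped edges `W`:
the destination outputs the sum of the source values, and, when the source values are
independent standard Gaussians, the family of wiretapped signals is independent of the sum. -/
def IsSecret [Fintype V] {N : Network V} (W : V → V → Prop) (c : Coding N)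
    (Y : ∀ v w, (N.Src → ℝ) → Fin (c.dim v w) → ℝ) [Fintype N.Src] : Prop :=
  (∀ x : N.Src → ℝ, c.g (fun u => Y u N.d x) = ∑ s, x s) ∧
  ∀ (Ω : Type w) [MeasurableSpace Ω] (P : Measure Ω) (X : N.Src → Ω → ℝ),
    (∀ s, HasLaw (X s) (gaussianReal 0 1) P) → iIndepFun X P →
    IndepFun (fun ω (p : {p : V × V // W p.1 p.2}) => Y p.1.1 p.1.2 (fun s => X s ω))
      (fun ω => ∑ s, X s ω) P

lemma yy_add (N : Network V) (W : V → V → Prop) (v w : V) (x y : N.Src → ℝ) :
    yy N W v w (x + y) = yy N W v w x + yy N W v w y := by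
  ext (s | ⟨s, t⟩)
  · simp only [yy, Pi.add_apply]
    split_ifs <;> simp
  · simp only [yy, Pi.add_apply]
    split_ifs
    · ring
    · simp

lemma yy_smul (N : Network V) (W : V → V → Prop) (v w : V) (r : ℝ) (x : N.Src → ℝ) :
    yy N W v w (r • x) = r • yy N W v w x := by
  ext (s | ⟨s, t⟩)
  · simp only [yy, Pi.smul_apply, smul_eq_mul]
    split_ifs <;> simp
  · simp only [yy, Pi.smul_apply, smul_eq_mul]
    split_ifs
    · ring
    · simp

lemma yy_one (N : Network V) (W : V → V → Prop) {v w : V} (h : W v w) :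
    yy N W v w (fun _ => 1) = 0 := by
  ext (s | ⟨s, t⟩)
  · simp [yy, h]
  · simp [yy]

/-- **Answer to Q1 (positive).** In every network with at least two vertices and for every set
`W` of wiretapped edges satisfying condition (C) there is a secret coding scheme, which can
moreover be taken linear. -/
theorem result [Fintype V] [Nontrivial V] (N : Network V) [Fintype N.Src] (W : V → V → Prop)
    (_hWE : ∀ u v, W u v → N.E u v) (hC : N.CondC W) :
    ∃ c : Coding N, c.Meas ∧ c.IsLinear ∧
      ∃ Y : ∀ v w, (N.Src → ℝ) → Fin (c.dim v w) → ℝ,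
        c.IsSignal Y ∧
        (∀ Y' : ∀ v w, (N.Src → ℝ) → Fin (c.dim v w) → ℝ, c.IsSignal Y' →
          ∀ v w, N.E v w → Y' v w = Y v w) ∧
        IsSecret.{u, w} W c Y := by
  classical
  set ι := N.Src ⊕ (N.Src × N.Src) with hι
  set k := Fintype.card ι with hk
  let e : ι ≃ Fin k := Fintype.equivFin ι
  choose φ hφ using enc N W
  have hdec : ∀ s : N.Src, Dec N W s := dec_all N W hC
  choose ψ hψ using hdec
  -- the change of coordinates
  let T : ∀ v, (({u // N.E u v} → Fin k → ℝ) × ℝ) →ₗ[ℝ] Inp N v := fun v =>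
    LinearMap.prodMap (LinearMap.pi (fun u => (LinearMap.funLeft ℝ ℝ e).comp (LinearMap.proj u)))
      LinearMap.id
  let F : ∀ v w : V, (({u // N.E u v} → Fin k → ℝ) × ℝ) →ₗ[ℝ] (Fin k → ℝ) := fun v w =>
    (LinearMap.funLeft ℝ ℝ e.symm).comp ((φ v w).comp (T v))
  let Gd : ({u // N.E u N.d} → Fin k → ℝ) →ₗ[ℝ] ℝ :=
    (∑ s, ψ s).comp ((T N.d).comp (LinearMap.inl ℝ _ _))
  let c : Coding N := ⟨fun _ _ => k, fun v w p => F v w p, fun y => Gd y⟩
  let Y : ∀ v w : V, (N.Src → ℝ) → Fin k → ℝ := fun v w x j => yy N W v w x (e.symm j)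
  have hT : ∀ v x, T v (fun u => Y u v x, N.own v x) = inp N W v x := by
    intro v x
    refine Prod.ext ?_ rfl
    funext u i
    simp [T, Y, inp, LinearMap.funLeft_apply]
  have hY : c.IsSignal Y := by
    intro v w _ x
    show Y v w x = F v w (fun u => Y u v x, N.own v x)
    simp only [F, LinearMap.comp_apply]
    rw [hT, hφ]
    funext j
    simp [Y, LinearMap.funLeft_apply]
  have hd : ¬ N.IsSource N.d := by
    intro hs
    obtain ⟨v, hv⟩ := exists_ne N.d
    rcases ReflTransGen.cases_head (N.weaklyConnected N.d v) with h | ⟨b, hb, _⟩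
    · exact hv h.symm
    · rcases hb with hb | hb
      · exact N.d_sink b hb
      · exact hs b hb
  refine ⟨c, ⟨fun v w => ?_, ?_⟩, ⟨fun v w => (F v w).isLinear, Gd.isLinear⟩, Y, hY, ?_, ?_, ?_⟩
  · exact (LinearMap.continuous_of_finiteDimensional (F v w)).measurable
  · exact (LinearMap.continuous_of_finiteDimensional Gd).measurable
  · intro Y' hY' v
    induction v using (wf_E N).induction with
    | _ v ih =>
      intro w hvw
      funext x
      rw [hY' v w hvw x, hY v w hvw x]
      congr 1
      refine Prod.ext ?_ rfl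
      funext u
      exact congrFun (ih u u.2 v u.2) x
  · intro x
    show Gd (fun u => Y u N.d x) = ∑ s, x s
    have h1 : (fun u : {u // N.E u N.d} => Y u N.d x, (0 : ℝ)) =
        ((fun u : {u // N.E u N.d} => Y u N.d x), N.own N.d x) := by
      simp [Network.own, hd]
    simp only [Gd, LinearMap.comp_apply, LinearMap.inl_apply]
    rw [h1, hT]
    simp [LinearMap.sum_apply, hψ]
  · intro Ω _ P X hX hI
    let L : (N.Src → ℝ) →ₗ[ℝ] ({p : V × V // W p.1 p.2} → Fin k → ℝ) :=
      { toFun := fun x p => Y p.1.1 p.1.2 x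
        map_add' := by
          intro x y
          funext p j
          simp [Y, yy_add]
        map_smul' := by
          intro r x
          funext p j
          simp [Y, yy_smul] }
    have hL : LinearMap.toContinuousLinearMap L (fun _ => 1) = 0 := by
      funext p j
      simp [L, Y, yy_one N W p.2]
    exact indep_of_kills hX hI (LinearMap.toContinuousLinearMap L) hL

end Pool.Agent.Results.MP_121ed1_lc.SecretSum
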